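import Mathlib

/-!
# Smooth Lipschitz bumps from two families of functionals

Let `q g` (`g : G`) and `w o` (`o : W`) be functionals of norm at most one on `X` such that
`{g : |q g x| ≥ d}` is finite for `d > 0`, `{o : |w o x| ≥ sup_g |q g x| + d}` is finite for `d > 0`
and `‖x‖ ≤ sup_o |w o x|`. Then `X` has a `C^∞` smooth Lipschitz bump.
-/

set_option autoImplicit false

namespace Pool.Agent.Helper57.Bump

open Real MeasureTheory Set

/-- the cutoff function -/
noncomputable def et (s : ℝ) : ℝ := Real.smoothTransition (2 - s ^ 2)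

theorem et_nonneg (s : ℝ) : 0 ≤ et s := Real.smoothTransition.nonneg _

theorem et_le_one (s : ℝ) : et s ≤ 1 := Real.smoothTransition.le_one _

theorem et_contDiff {n : ℕ∞} : ContDiff ℝ n et :=
  Real.smoothTransition.contDiff.comp (contDiff_const.sub (contDiff_id.pow 2))

theorem et_eq_one {s : ℝ} (h : |s| ≤ 1) : et s = 1 := by
  unfold et
  rw [Real.smoothTransition.eq_one_iff_one_le]
  have : s ^ 2 ≤ 1 := by rw [← sq_abs]; nlinarith [abs_nonneg s]
  linarith

theorem et_ne_zero {s : ℝ} (h : et s ≠ 0) : s ^ 2 < 2 := by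
  by_contra hc
  apply h
  unfold et
  rw [Real.smoothTransition.zero_iff_nonpos]
  linarith

theorem et_anti {s s' : ℝ} (h : |s| ≤ |s'|) : et s' ≤ et s := by
  apply Real.smoothTransition.monotone
  have : s ^ 2 ≤ s' ^ 2 := sq_le_sq.2 h
  linarith

variable {X : Type*} [NormedAddCommGroup X] [NormedSpace ℝ X] {I : Type*}
  (u : I → X →L[ℝ] ℝ) (a : I → ℝ)

/-- finite products -/
noncomputable def PH (F : Finset I) (s : ℝ) (x : X) : ℝ :=
  ∏ i ∈ F, et (Real.exp (-s) * u i x / a i)

/-- the infinite product -/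
noncomputable def HH (s : ℝ) (x : X) : ℝ := ⨅ F : Finset I, PH u a F s x

variable {u a}

theorem PH_nonneg (F : Finset I) (s : ℝ) (x : X) : 0 ≤ PH u a F s x :=
  Finset.prod_nonneg fun _ _ => et_nonneg _

theorem PH_le_one (F : Finset I) (s : ℝ) (x : X) : PH u a F s x ≤ 1 :=
  Finset.prod_le_one (fun _ _ => et_nonneg _) fun _ _ => et_le_one _

theorem bdd (s : ℝ) (x : X) : BddBelow (Set.range fun F : Finset I => PH u a F s x) :=
  ⟨0, by rintro _ ⟨F, rfl⟩; exact PH_nonneg F s x⟩

theorem HH_le (F : Finset I) (s : ℝ) (x : X) : HH u a s x ≤ PH u a F s x := ciInf_le (bdd s x) F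

theorem HH_nonneg (s : ℝ) (x : X) : 0 ≤ HH u a s x := le_ciInf fun F => PH_nonneg F s x

theorem HH_le_one (s : ℝ) (x : X) : HH u a s x ≤ 1 := (HH_le ∅ s x).trans (PH_le_one _ _ _)

theorem HH_mono_of {s s' : ℝ} {x x' : X} (h : ∀ F, PH u a F s x ≤ PH u a F s' x') :
    HH u a s x ≤ HH u a s' x' := ciInf_mono (bdd s x) h

theorem PH_mono (F : Finset I) {s s' : ℝ} (h : s ≤ s') (x : X) : PH u a F s x ≤ PH u a F s' x := by
  apply Finset.prod_le_prod (fun _ _ => et_nonneg _)
  intro i _
  apply et_anti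
  rw [mul_div_assoc, mul_div_assoc, abs_mul, abs_mul]
  apply mul_le_mul_of_nonneg_right _ (abs_nonneg _)
  rw [abs_of_pos (Real.exp_pos _), abs_of_pos (Real.exp_pos _)]
  exact Real.exp_le_exp.2 (by linarith)

theorem HH_mono (x : X) : Monotone fun s => HH u a s x :=
  fun _ _ h => HH_mono_of fun F => PH_mono F h x

theorem HH_zero (s : ℝ) : HH u a s (0 : X) = 1 := by
  apply le_antisymm (HH_le_one _ _)
  apply le_ciInf
  intro F
  unfold PH
  apply le_of_eq
  symm
  apply Finset.prod_eq_one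
  intro i _
  apply et_eq_one
  simp

/-- the shift inequality for one factor -/
theorem et_shift {p r d s A : ℝ} (hA : 1 ≤ A) (hs : 0 ≤ s) (hd : 0 ≤ d) (h : |p - r| ≤ d) :
    et (Real.exp (-s) * p / A) ≤ et (Real.exp (-(s + d)) * r / A) := by
  have hA0 : 0 < A := by linarith
  have hs1 : 1 ≤ Real.exp s := Real.one_le_exp hs
  have hd1 : 1 + d ≤ Real.exp d := by
    have := Real.add_one_le_exp d
    linarith
  have hrp : |r| ≤ |p| + d := by
    have h1 : |r| ≤ |r - p| + |p| := by
      have := abs_add_le (r - p) p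
      simpa using this
    rw [abs_sub_comm] at h1
    linarith
  have e1 : |Real.exp (-(s + d)) * r / A| = |r| / (A * (Real.exp s * Real.exp d)) := by
    rw [abs_div, abs_mul, abs_of_pos hA0, abs_of_pos (Real.exp_pos _), Real.exp_neg, Real.exp_add]
    field_simp
  have e2 : |Real.exp (-s) * p / A| = |p| / (A * Real.exp s) := by
    rw [abs_div, abs_mul, abs_of_pos hA0, abs_of_pos (Real.exp_pos _), Real.exp_neg]
    field_simp
  have hpos : 0 < A * (Real.exp s * Real.exp d) := by positivity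
  have hpos' : 0 < A * Real.exp s := by positivity
  have hAs : 1 ≤ A * Real.exp s := by nlinarith
  rcases le_or_gt |p| (A * Real.exp s) with hp | hp
  · rw [et_eq_one (s := Real.exp (-(s + d)) * r / A)]
    · exact et_le_one _
    · rw [e1, div_le_one hpos]
      have h2 : A * Real.exp s + d ≤ A * Real.exp s * (1 + d) := by nlinarith
      have h3 : A * Real.exp s * (1 + d) ≤ A * Real.exp s * Real.exp d :=
        mul_le_mul_of_nonneg_left hd1 hpos'.le
      nlinarith
  · apply et_anti
    rw [e1, e2, div_le_div_iff₀ hpos hpos']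
    have h2 : |r| ≤ |p| * (1 + d) := by nlinarith
    have h3 : |p| * (1 + d) ≤ |p| * Real.exp d := mul_le_mul_of_nonneg_left hd1 (abs_nonneg _)
    nlinarith

theorem HH_shift (hu : ∀ i z, |u i z| ≤ ‖z‖) (ha : ∀ i, 1 ≤ a i) {s : ℝ} (hs : 0 ≤ s) (x y : X) :
    HH u a s y ≤ HH u a (s + ‖y - x‖) x := by
  apply HH_mono_of
  intro F
  apply Finset.prod_le_prod (fun _ _ => et_nonneg _)
  intro i _
  apply et_shift (ha i) hs (norm_nonneg _)
  rw [← map_sub]
  exact hu i _

variable (u a)

/-- the bump -/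
noncomputable def bump (x : X) : ℝ := ∫ s in (0 : ℝ)..1, HH u a s x

variable {u a}

theorem HH_int (x : X) (p r : ℝ) : IntervalIntegrable (fun s => HH u a s x) volume p r :=
  (HH_mono x).intervalIntegrable

theorem bump_nonneg (x : X) : 0 ≤ bump u a x :=
  intervalIntegral.integral_nonneg (by norm_num) fun s _ => HH_nonneg s x

theorem bump_zero : bump u a (0 : X) = 1 := by
  unfold bump
  simp [HH_zero]

theorem int_le {x : X} {p r : ℝ} (h : p ≤ r) : ∫ s in p..r, HH u a s x ≤ r - p := by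
  have h1 := intervalIntegral.integral_mono_on h (HH_int (u := u) (a := a) x p r)
    (intervalIntegrable_const (c := (1 : ℝ))) fun s _ => HH_le_one s x
  simpa using h1

theorem int_nonneg {x : X} {p r : ℝ} (h : p ≤ r) : 0 ≤ ∫ s in p..r, HH u a s x :=
  intervalIntegral.integral_nonneg h fun s _ => HH_nonneg s x

theorem bump_lip (hu : ∀ i z, |u i z| ≤ ‖z‖) (ha : ∀ i, 1 ≤ a i) (x y : X) :
    bump u a y ≤ bump u a x + ‖y - x‖ := by
  set d := ‖y - x‖ with hd
  have hd0 : 0 ≤ d := norm_nonneg _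
  have h1 : bump u a y ≤ ∫ s in (0 : ℝ)..1, HH u a (s + d) x := by
    apply intervalIntegral.integral_mono_on (by norm_num) (HH_int y 0 1)
    · have hm : Monotone fun s => HH u a (s + d) x := fun p r h => HH_mono x (by linarith)
      exact hm.intervalIntegrable
    · intro s hs
      exact HH_shift hu ha hs.1 x y
  rw [intervalIntegral.integral_comp_add_right (fun s => HH u a s x) d] at h1
  have h2 : ∫ s in (0 + d : ℝ)..(1 + d), HH u a s x =
      (∫ s in (0 : ℝ)..1, HH u a s x) + (∫ s in (1 : ℝ)..(1 + d), HH u a s x)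
        - ∫ s in (0 : ℝ)..d, HH u a s x := by
    have e1 := intervalIntegral.integral_add_adjacent_intervals (HH_int (u := u) (a := a) x 0 1)
      (HH_int (u := u) (a := a) x 1 (1 + d))
    have e2 := intervalIntegral.integral_add_adjacent_intervals (HH_int (u := u) (a := a) x 0 d)
      (HH_int (u := u) (a := a) x d (1 + d))
    rw [zero_add]
    linarith
  have h3 : ∫ s in (1 : ℝ)..(1 + d), HH u a s x ≤ d := by
    have := int_le (u := u) (a := a) (x := x) (p := 1) (r := 1 + d) (by linarith)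
    linarith
  have h4 := int_nonneg (u := u) (a := a) (x := x) hd0
  unfold bump at h1 ⊢
  linarith

theorem bump_lipschitz (hu : ∀ i z, |u i z| ≤ ‖z‖) (ha : ∀ i, 1 ≤ a i) :
    LipschitzWith 1 (bump u a) := by
  apply LipschitzWith.of_dist_le_mul
  intro x y
  rw [Real.dist_eq, abs_le, dist_eq_norm, NNReal.coe_one, one_mul]
  have h1 := bump_lip hu ha x y
  have h2 := bump_lip hu ha y x
  rw [norm_sub_rev] at h1
  constructor <;> linarith

/-- the cutoff in the parameter -/
noncomputable def chi : ContDiffBump (1 / 2 : ℝ) := ⟨1 / 2, 1, by norm_num, by norm_num⟩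

theorem bump_contDiff {n : ℕ∞} (hLF : ∀ x0 : X, ∃ F0 : Finset I, ∃ δ : ℝ, 0 < δ ∧
    ∀ y ∈ Metric.ball x0 δ, ∀ s : ℝ, -(1 / 2) < s → ∀ F, PH u a F0 s y ≤ PH u a F s y) :
    ContDiff ℝ n (bump u a) := by
  rw [contDiff_iff_contDiffAt]
  intro x0
  obtain ⟨F0, δ, hδ, hF0⟩ := hLF x0
  have hHH : ∀ y ∈ Metric.ball x0 δ, ∀ s : ℝ, -(1 / 2) < s → HH u a s y = PH u a F0 s y :=
    fun y hy s hs => le_antisymm (HH_le F0 s y) (le_ciInf fun F => hF0 y hy s hs F)
  -- the integrand
  set g : X → ℝ → ℝ := fun x σ => chi (-σ) * PH u a F0 (-σ) x with hg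
  have hk : IsCompact (Set.Icc (-(3 / 2) : ℝ) (1 / 2)) := isCompact_Icc
  have hgs : ∀ p : X, ∀ σ : ℝ, p ∈ Metric.ball x0 δ → σ ∉ Set.Icc (-(3 / 2) : ℝ) (1 / 2) →
      g p σ = 0 := by
    intro p σ _ hσ
    simp only [hg]
    rw [chi.zero_of_le_dist, zero_mul]
    rw [Real.dist_eq]
    simp only [chi]
    by_contra hc
    push Not at hc
    apply hσ
    rw [abs_lt] at hc
    constructor <;> linarith [hc.1, hc.2]
  have hgc : ContDiffOn ℝ n ↿g (Metric.ball x0 δ ×ˢ Set.univ) := by
    apply ContDiff.contDiffOn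
    have h1 : ContDiff ℝ n fun z : X × ℝ => chi (-z.2) := chi.contDiff.comp contDiff_snd.neg
    have h2 : ContDiff ℝ n fun z : X × ℝ => PH u a F0 (-z.2) z.1 := by
      unfold PH
      apply contDiff_prod
      intro i _
      apply et_contDiff.comp
      apply ContDiff.div_const
      apply ContDiff.mul
      · exact Real.contDiff_exp.comp contDiff_snd.neg.neg
      · exact (u i).contDiff.comp contDiff_fst
    exact h1.mul h2
  have hf : LocallyIntegrable (Set.indicator (Set.Icc (0 : ℝ) 1) fun _ => (1 : ℝ)) volume := by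
    apply Integrable.locallyIntegrable
    rw [integrable_indicator_iff measurableSet_Icc]
    exact integrableOn_const (by simp) (by simp)
  have hmain := contDiffOn_convolution_right_with_param_comp (𝕜 := ℝ) (μ := volume)
    (ContinuousLinearMap.mul ℝ ℝ) (s := Metric.ball x0 δ) (v := fun _ : X => (0 : ℝ))
    contDiffOn_const Metric.isOpen_ball hk hgs hf hgc
  have heq : ∀ y ∈ Metric.ball x0 δ, (convolution (Set.indicator (Set.Icc (0 : ℝ) 1) fun _ => (1 : ℝ))
      (g y) (ContinuousLinearMap.mul ℝ ℝ) volume) 0 = bump u a y := by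
    intro y hy
    unfold convolution bump
    rw [intervalIntegral.integral_of_le (by norm_num), ← integral_Icc_eq_integral_Ioc,
      ← integral_indicator measurableSet_Icc]
    congr 1
    funext t
    by_cases ht : t ∈ Set.Icc (0 : ℝ) 1
    · rw [Set.indicator_of_mem ht, Set.indicator_of_mem ht, hHH y hy t (by linarith [ht.1])]
      simp only [hg, ContinuousLinearMap.mul_apply', one_mul, zero_sub, neg_neg]
      rw [chi.one_of_mem_closedBall, one_mul]
      rw [Metric.mem_closedBall, Real.dist_eq, abs_le]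
      simp only [chi]
      constructor <;> linarith [ht.1, ht.2]
    · rw [Set.indicator_of_notMem ht, Set.indicator_of_notMem ht]
      simp
  have h3 : ContDiffOn ℝ n (bump u a) (Metric.ball x0 δ) :=
    hmain.congr fun y hy => (heq y hy).symm
  exact h3.contDiffAt (Metric.ball_mem_nhds x0 hδ)

/-! ### two families -/

section two

variable {G W : Type*} (q : G → X →L[ℝ] ℝ) (w : W → X →L[ℝ] ℝ)

/-- the functionals -/
def uu : G ⊕ W → X →L[ℝ] ℝ := Sum.elim q w

/-- the weights -/
def aa : G ⊕ W → ℝ := Sum.elim (fun _ => 1) (fun _ => 4)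

variable {q w}

theorem local_finite (hq : ∀ g z, |q g z| ≤ ‖z‖) (hw : ∀ o z, |w o z| ≤ ‖z‖)
    (hqf : ∀ x : X, ∀ d : ℝ, 0 < d → {g | d ≤ |q g x|}.Finite)
    (hwf : ∀ x : X, ∀ c : ℝ, 0 ≤ c → (∀ g, |q g x| ≤ c) → ∀ d : ℝ, 0 < d →
      {o | c + d ≤ |w o x|}.Finite) (x0 : X) :
    ∃ F0 : Finset (G ⊕ W), ∃ δ : ℝ, 0 < δ ∧ ∀ y ∈ Metric.ball x0 δ, ∀ s : ℝ, -(1 / 2) < s →
      ∀ F, PH (uu q w) (aa (G := G) (W := W)) F0 s y ≤ PH (uu q w) aa F s y := by
  classical
  have hbdd : BddAbove (Set.range fun g => |q g x0|) :=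
    ⟨‖x0‖, by rintro _ ⟨g, rfl⟩; exact hq g x0⟩
  set c : ℝ := ⨆ g, |q g x0| with hc
  have hc0 : 0 ≤ c := Real.iSup_nonneg fun g => abs_nonneg _
  have hcle : ∀ g, |q g x0| ≤ c := fun g => le_ciSup hbdd g
  have hG := hqf x0 (1 / 4) (by norm_num)
  have hW := hwf x0 c hc0 hcle (1 / 8) (by norm_num)
  refine ⟨hG.toFinset.disjSum hW.toFinset, 1 / 8, by norm_num, ?_⟩
  intro y hy s hs F
  rw [Metric.mem_ball, dist_eq_norm] at hy
  have ht : 1 / 2 < Real.exp s := by
    have := Real.add_one_le_exp s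
    linarith
  have hdq : ∀ g, |q g y - q g x0| < 1 / 8 := fun g => by
    rw [← map_sub]; exact (hq g _).trans_lt hy
  have hdw : ∀ o, |w o y - w o x0| < 1 / 8 := fun o => by
    rw [← map_sub]; exact (hw o _).trans_lt hy
  by_cases hz : PH (uu q w) (aa (G := G) (W := W)) (hG.toFinset.disjSum hW.toFinset) s y = 0
  · rw [hz]; exact PH_nonneg _ _ _
  -- all factors of `F0` are nonzero
  have hne : ∀ i ∈ hG.toFinset.disjSum hW.toFinset,
      et (Real.exp (-s) * (uu q w) i y / aa i) ≠ 0 := Finset.prod_ne_zero_iff.1 hz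
  have hgy : ∀ g, |q g y| ≤ 3 / 2 * Real.exp s := by
    intro g
    by_cases hg : 1 / 4 ≤ |q g x0|
    · have h1 := et_ne_zero (hne (Sum.inl g) (Finset.inl_mem_disjSum.2 (hG.mem_toFinset.2 hg)))
      simp only [uu, aa, Sum.elim_inl, div_one] at h1
      rw [Real.exp_neg] at h1
      have h2 : (q g y) ^ 2 < 2 * Real.exp s ^ 2 := by
        have h3 : ((Real.exp s)⁻¹ * q g y) ^ 2 * Real.exp s ^ 2 = (q g y) ^ 2 := by
          have := (Real.exp_pos s).ne'
          field_simp
        rw [← h3]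
        exact mul_lt_mul_of_pos_right h1 (by positivity)
      apply abs_le_of_sq_le_sq _ (by positivity)
      nlinarith [Real.exp_pos s]
    · have h1 := abs_lt.1 (hdq g)
      have h2 := abs_lt.1 (not_le.1 hg)
      rw [abs_le]
      constructor <;> linarith [h1.1, h1.2, h2.1, h2.2]
  have hcs : c ≤ 3 / 2 * Real.exp s + 1 / 8 := by
    apply Real.iSup_le _ (by positivity)
    intro g
    have h1 := abs_lt.1 (hdq g)
    have h2 := abs_le.1 (hgy g)
    rw [abs_le]
    constructor <;> linarith [h1.1, h1.2, h2.1, h2.2]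
  have hone : ∀ i ∉ hG.toFinset.disjSum hW.toFinset,
      et (Real.exp (-s) * (uu q w) i y / aa i) = 1 := by
    rintro (g | o) hi
    · have hg : |q g x0| < 1 / 4 := by
        by_contra hcon
        exact hi (Finset.inl_mem_disjSum.2 (hG.mem_toFinset.2 (not_lt.1 hcon)))
      apply et_eq_one
      simp only [uu, aa, Sum.elim_inl, div_one]
      rw [abs_mul, abs_of_pos (Real.exp_pos _), Real.exp_neg, inv_mul_le_iff₀ (Real.exp_pos _),
        mul_one]
      have h1 := abs_lt.1 (hdq g)
      have h2 := abs_lt.1 hg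
      rw [abs_le]
      constructor <;> linarith [h1.1, h1.2, h2.1, h2.2]
    · have ho : |w o x0| < c + 1 / 8 := by
        by_contra hcon
        exact hi (Finset.inr_mem_disjSum.2 (hW.mem_toFinset.2 (not_lt.1 hcon)))
      apply et_eq_one
      simp only [uu, aa, Sum.elim_inr]
      rw [abs_div, abs_mul, abs_of_pos (Real.exp_pos _), Real.exp_neg, div_le_one (by norm_num),
        inv_mul_le_iff₀ (Real.exp_pos _)]
      have h1 := abs_lt.1 (hdw o)
      have h2 := abs_lt.1 ho
      norm_num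
      rw [abs_le]
      constructor <;> linarith [h1.1, h1.2, h2.1, h2.2]
  calc PH (uu q w) (aa (G := G) (W := W)) (hG.toFinset.disjSum hW.toFinset) s y
      ≤ PH (uu q w) aa (F ∩ hG.toFinset.disjSum hW.toFinset) s y := by
        unfold PH
        rw [← Finset.prod_sdiff (Finset.inter_subset_right :
          F ∩ hG.toFinset.disjSum hW.toFinset ⊆ hG.toFinset.disjSum hW.toFinset)]
        exact mul_le_of_le_one_left (Finset.prod_nonneg fun _ _ => et_nonneg _)
          (Finset.prod_le_one (fun _ _ => et_nonneg _) fun _ _ => et_le_one _)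
    _ = PH (uu q w) aa F s y := by
        unfold PH
        apply Finset.prod_subset Finset.inter_subset_left
        intro i hi hni
        apply hone
        intro hi2
        exact hni (Finset.mem_inter.2 ⟨hi, hi2⟩)

/-- smooth Lipschitz bump from two families of functionals -/
theorem exists_bump (hq : ∀ g z, |q g z| ≤ ‖z‖) (hw : ∀ o z, |w o z| ≤ ‖z‖)
    (hqf : ∀ x : X, ∀ d : ℝ, 0 < d → {g | d ≤ |q g x|}.Finite)
    (hwf : ∀ x : X, ∀ c : ℝ, 0 ≤ c → (∀ g, |q g x| ≤ c) → ∀ d : ℝ, 0 < d →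
      {o | c + d ≤ |w o x|}.Finite)
    (hn : ∀ x : X, ∀ c : ℝ, 0 ≤ c → (∀ o, |w o x| ≤ c) → ‖x‖ ≤ c) (n : ℕ∞) :
    ∃ b : X → ℝ, ContDiff ℝ n b ∧ (∃ L : NNReal, LipschitzWith L b) ∧ b ≠ 0 ∧
      Bornology.IsBounded (Function.support b) := by
  have ha : ∀ i : G ⊕ W, 1 ≤ aa i := by rintro (g | o) <;> norm_num [aa]
  have hu : ∀ (i : G ⊕ W) (z : X), |uu q w i z| ≤ ‖z‖ := by
    rintro (g | o) z
    · exact hq g z
    · exact hw o z
  refine ⟨bump (uu q w) aa, bump_contDiff (local_finite hq hw hqf hwf), ⟨1, bump_lipschitz hu ha⟩,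
    ?_, ?_⟩
  · intro h
    have h1 := congrFun h 0
    rw [bump_zero] at h1
    simp at h1
  · rw [isBounded_iff_forall_norm_le]
    refine ⟨32, ?_⟩
    intro x hx
    by_contra hcon
    apply hx
    have hz : ∀ s ∈ Set.Icc (0 : ℝ) 1, HH (uu q w) (aa (G := G) (W := W)) s x = 0 := by
      intro s hs
      by_contra hne
      apply hcon
      apply hn x 32 (by norm_num)
      intro o
      have h1 : PH (uu q w) (aa (G := G) (W := W)) {Sum.inr o} s x ≠ 0 := by
        intro h0
        apply hne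
        apply le_antisymm _ (HH_nonneg _ _)
        rw [← h0]
        exact HH_le _ _ _
      unfold PH at h1
      rw [Finset.prod_singleton] at h1
      have h2 := et_ne_zero h1
      simp only [uu, aa, Sum.elim_inr] at h2
      rw [Real.exp_neg] at h2
      have h3 : (w o x) ^ 2 < 32 * Real.exp s ^ 2 := by
        have h4 : ((Real.exp s)⁻¹ * w o x / 4) ^ 2 * (16 * Real.exp s ^ 2) = (w o x) ^ 2 := by
          have := (Real.exp_pos s).ne'
          field_simp
          norm_num
        rw [← h4]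
        have h5 : (0 : ℝ) < 16 * Real.exp s ^ 2 := by positivity
        nlinarith
      have h6 : Real.exp s ≤ 3 := by
        have h7 : Real.exp s ≤ Real.exp 1 := Real.exp_le_exp.2 hs.2
        have h8 := Real.exp_one_lt_d9
        linarith
      apply abs_le_of_sq_le_sq _ (by norm_num)
      nlinarith [Real.exp_pos s]
    unfold bump
    rw [intervalIntegral.integral_congr (g := fun _ => (0 : ℝ))]
    · simp
    · intro s hs
      rw [Set.uIcc_of_le (by norm_num)] at hs
      exact hz s hs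

end two

end Pool.Agent.Helper57.Bump
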